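import Mathlib
import Pool.Agent.Helper87.VP.FinV
import Pool.Agent.Helper74.PF.Main

set_option autoImplicit false

/-!
# The unconditional product forms: the two families of weights
-/

open Filter Topology

namespace Pool.Agent.Helper87.UV

open Pool.Agent.Helper9.BSD Pool.Agent.Helper99.CM Pool.Agent.Helper10.UP
open Pool.Agent.Helper87.VP

/-- `P` is asymptotic to `C g ^ κ`, `C > 0`, exactly if `κ = k` and `C = K`. -/
def Exactly (P g : ℕ → ℝ) (k K : ℝ) : Prop :=
  ∀ κ C : ℝ, 0 < C → (Tendsto (fun x : ℕ => P x / g x ^ κ) atTop (𝓝 C) ↔ κ = k ∧ C = K)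

theorem exactly_of {P g : ℕ → ℝ} {k K : ℝ} (hg : Tendsto g atTop atTop) (hK : 0 < K)
    (h : Tendsto (fun x : ℕ => P x / g x ^ k) atTop (𝓝 K)) : Exactly P g k K := by
  intro κ C hC
  constructor
  · intro h2
    have h3 : Tendsto (fun x : ℕ => (g x) ^ (κ - k)) atTop (𝓝 (K / C)) := by
      refine (h.div h2 hC.ne').congr' ?_
      have hne := h2.eventually_ne hC.ne'
      filter_upwards [hg.eventually (eventually_gt_atTop (0 : ℝ)), hne] with x hx hfx
      have hf : P x ≠ 0 := by
        intro h0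
        apply hfx
        rw [h0, zero_div]
      show P x / (g x) ^ k / (P x / (g x) ^ κ) = _
      rw [Real.rpow_sub hx]
      have h5 : (g x) ^ k ≠ 0 := (Real.rpow_pos_of_pos hx _).ne'
      have h6 : (g x) ^ κ ≠ 0 := (Real.rpow_pos_of_pos hx _).ne'
      field_simp
    have hkm : κ = k := by
      rcases lt_trichotomy κ k with hlt | heq | hgt
      · exfalso
        have h4 : Tendsto (fun x : ℕ => (g x) ^ (κ - k)) atTop (𝓝 0) := by
          have := (tendsto_rpow_neg_atTop (y := k - κ) (by linarith)).comp hg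
          rw [neg_sub] at this
          exact this
        exact (div_pos hK hC).ne' (tendsto_nhds_unique h3 h4)
      · exact heq
      · exfalso
        have h4 : Tendsto (fun x : ℕ => (g x) ^ (κ - k)) atTop atTop :=
          (tendsto_rpow_atTop (y := κ - k) (by linarith)).comp hg
        exact not_tendsto_nhds_of_tendsto_atTop h4 _ h3
    subst hkm
    exact ⟨rfl, tendsto_nhds_unique h2 h⟩
  · rintro ⟨rfl, rfl⟩
    exact h

theorem tendsto_loglog : Tendsto (fun x : ℕ => Real.log (Real.log x)) atTop atTop :=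
  Real.tendsto_log_atTop.comp Helper87.UP.tendsto_log_nat

/-- The weight `Re (1 / Γ (1 + e ^ (i / √τ) log n / τ))`, `τ = (1/2) log log x`. -/
noncomputable def wU (x n : ℕ) : ℝ :=
  wt (1 / Real.sqrt (Real.log (Real.log x) / 2)) (Real.log (Real.log x) / 2) (Real.log n)

/-- The product over the good primes up to `x` with exponents `w x p`. -/
noncomputable def goodP (W : WeierstrassCurve ℤ) (w : ℕ → ℕ → ℝ) (x : ℕ) : ℝ :=
  ∏ p ∈ (Finset.Icc 1 x).filter (fun p : ℕ => p.Prime ∧ ¬ (p : ℤ) ∣ W.Δ),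
    ((numPts W p : ℝ) / p) ^ w x p

/-- The exponential of minus the sum of `lam W n * w x n` up to `x`. -/
noncomputable def starP (W : WeierstrassCurve ℤ) (w : ℕ → ℕ → ℝ) (x : ℕ) : ℝ :=
  Real.exp (-∑ n ∈ Finset.Icc 1 x, lam W n * w x n)

variable {W : WeierstrassCurve ℤ} {F : ℂ → ℂ} {m : ℕ}

theorem star_U (hF : IsCont W F m) :
    Exactly (starP W wU) (fun x => Real.log (Real.log x)) m
      (Real.exp (-(m * kap)) / (2 ^ m * ‖iteratedDeriv m F 1 / (m.factorial : ℂ)‖)) := by
  have hpos := Helper74.PF.norm_lead_pos hF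
  refine exactly_of tendsto_loglog (by positivity) ?_
  have h := Helper74.PF.star_log hF
  have h2 := Helper87.UP.trunc (b := lam W) (K := 2) (Helper95.UP.abs_lam_le_rpow W)
    (Helper95.UP.lam_zero W)
  have e : ∀ x : ℕ, (1 / 2 : ℝ) * Real.log (Real.log x) = Real.log (Real.log x) / 2 :=
    fun x => by ring
  simp only [e] at h2
  simp only [one_div] at h h2
  have h3 := Helper74.UP.fin_form h h2
  have e2 : Real.exp (-(m * kap + Real.log ‖iteratedDeriv m F 1 / (m.factorial : ℂ)‖)) / 2 ^ m =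
      Real.exp (-(m * kap)) / (2 ^ m * ‖iteratedDeriv m F 1 / (m.factorial : ℂ)‖) := by
    rw [neg_add, Real.exp_add, Real.exp_neg (Real.log _), Real.exp_log hpos]
    field_simp
  rw [e2] at h3
  refine h3.congr fun x => ?_
  rw [Real.rpow_natCast]
  simp only [starP, wU, one_div]

theorem good_U (hD : W.Δ ≠ 0) (hS : SqWin W) (hF : IsCont W F m) :
    Exactly (goodP W wU) (fun x => Real.log (Real.log x)) m
      (√2 * Real.exp (-(m * kap)) /
        (2 ^ m * ‖iteratedDeriv m F 1 / (m.factorial : ℂ)‖ * badProd W)) := by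
  have hpos := Helper74.PF.norm_lead_pos hF
  have hbp : 0 < badProd W := badProd_pos W hD
  have hq : 0 < √2 / badProd W := by positivity
  refine exactly_of tendsto_loglog (by positivity) ?_
  have h := Helper74.PF.fin_W hD hS hF
  have e2 : Real.exp (Real.log (√2 / badProd W)
        - (m * kap + Real.log ‖iteratedDeriv m F 1 / (m.factorial : ℂ)‖)) / 2 ^ m =
      √2 * Real.exp (-(m * kap)) /
        (2 ^ m * ‖iteratedDeriv m F 1 / (m.factorial : ℂ)‖ * badProd W) := by
    have e3 : Real.log (√2 / badProd W)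
        - (m * kap + Real.log ‖iteratedDeriv m F 1 / (m.factorial : ℂ)‖) =
        Real.log (√2 / badProd W) + -(m * kap) +
          -Real.log ‖iteratedDeriv m F 1 / (m.factorial : ℂ)‖ := by ring
    rw [e3, Real.exp_add, Real.exp_add, Real.exp_neg (Real.log _), Real.exp_log hpos,
      Real.exp_log hq]
    field_simp
  rw [e2] at h
  refine h.congr fun x => ?_
  rw [Real.rpow_natCast]
  rfl

theorem star_V (hF : IsCont W F m) {a : ℝ} (ha0 : 0 < a) (ha9 : a ≤ 1 / 9)
    (hz : ∀ r θ : ℝ, 0 < r → Real.pi * a / 2 < θ → θ < 7 * Real.pi * a / 2 →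
      F (1 + r * Complex.exp (θ * Complex.I)) ≠ 0) :
    Exactly (starP W (wV a)) (fun x => Real.log x) (a * m)
      (Real.exp (a * m * Real.eulerMascheroniConstant) /
        (2 ^ m * ‖iteratedDeriv m F 1 / (m.factorial : ℂ)‖)) := by
  have hpos := Helper74.PF.norm_lead_pos hF
  exact exactly_of Helper87.UP.tendsto_log_nat (by positivity) (star_fin W hF ha0 ha9 hz)

theorem good_V (hD : W.Δ ≠ 0) (hS : SqWin W) (hF : IsCont W F m) {a : ℝ} (ha0 : 0 < a)
    (ha9 : a ≤ 1 / 9)
    (hz : ∀ r θ : ℝ, 0 < r → Real.pi * a / 2 < θ → θ < 7 * Real.pi * a / 2 →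
      F (1 + r * Complex.exp (θ * Complex.I)) ≠ 0) :
    Exactly (goodP W (wV a)) (fun x => Real.log x) (a * m)
      (√2 * Real.exp (a * m * Real.eulerMascheroniConstant) /
        (2 ^ m * ‖iteratedDeriv m F 1 / (m.factorial : ℂ)‖ * badProd W)) := by
  have hpos := Helper74.PF.norm_lead_pos hF
  have hbp : 0 < badProd W := badProd_pos W hD
  refine exactly_of Helper87.UP.tendsto_log_nat (by positivity) ?_
  have h := prod_fin_V W hD hS hF ha0 ha9 hz
  have e : √2 / badProd W * (Real.exp (a * m * Real.eulerMascheroniConstant) /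
        (2 ^ m * ‖iteratedDeriv m F 1 / (m.factorial : ℂ)‖)) =
      √2 * Real.exp (a * m * Real.eulerMascheroniConstant) /
        (2 ^ m * ‖iteratedDeriv m F 1 / (m.factorial : ℂ)‖ * badProd W) := by
    field_simp
  rw [e] at h
  exact h

end Pool.Agent.Helper87.UV
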